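import Pool.Agent.Helper11.M3.Goals3

/-!
Packet M3-S_TL of project M3 (MP_fc6b1e_nt): very large norms.
-/

set_option autoImplicit false

namespace Pool.Agent.Helper5.M3

open Finset Pool.Agent.Helper17.PP Pool.Agent.Helper17.PP0 Pool.Agent.Helper17.PP2
  Pool.Agent.Helper11.M3

/-- `n³ exp(-√n)` is small for large `n`. -/
theorem exp_small {ε : ℝ} (hε : 0 < ε) :
    ∃ n₀ : ℝ, 1 ≤ n₀ ∧ ∀ n : ℝ, n₀ ≤ n → n ^ 3 * Real.exp (-√n) ≤ ε := by
  have h := (Real.tendsto_pow_mul_exp_neg_atTop_nhds_zero 6).eventually_lt_const hε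
  obtain ⟨a, ha⟩ := Filter.eventually_atTop.1 h
  refine ⟨max 1 (a ^ 2), le_max_left _ _, fun n hn => ?_⟩
  have hn0 : 0 ≤ n := zero_le_one.trans ((le_max_left _ _).trans hn)
  have h1 : a ≤ √n := by
    have h2 : √(a ^ 2) ≤ √n := Real.sqrt_le_sqrt ((le_max_right _ _).trans hn)
    rw [Real.sqrt_sq_eq_abs] at h2
    exact (le_abs_self a).trans h2
  have h3 := ha (√n) h1
  have h4 : √n ^ 6 = n ^ 3 := by
    calc √n ^ 6 = (√n ^ 2) ^ 3 := by ring
      _ = n ^ 3 := by rw [Real.sq_sqrt hn0]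
  rw [h4] at h3
  exact h3.le

/-- `2 E² (t+1)² ≤ 2^t` for large `t`. -/
theorem pow_big (E : ℕ) : ∃ t₀ : ℕ, ∀ t : ℕ, t₀ ≤ t → 2 * E ^ 2 * (t + 1) ^ 2 ≤ 2 ^ t := by
  have h := tendsto_pow_const_div_const_pow_of_one_lt 2 (one_lt_two : (1 : ℝ) < 2)
  have hpos : (0 : ℝ) < 1 / (4 * (E : ℝ) ^ 2 + 1) := by positivity
  obtain ⟨a, ha⟩ := Filter.eventually_atTop.1 (h.eventually_lt_const hpos)
  refine ⟨a, fun t ht => ?_⟩
  have h1 := ha (t + 1) (by omega)
  rw [div_lt_div_iff₀ (by positivity) (by positivity)] at h1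
  have h2 : (2 : ℝ) * E ^ 2 * (t + 1) ^ 2 ≤ 2 ^ t := by
    push_cast at h1
    have h3 : (2 : ℝ) ^ (t + 1) = 2 * 2 ^ t := by ring
    rw [h3] at h1
    have h4 : (0 : ℝ) ≤ ((t : ℝ) + 1) ^ 2 := by positivity
    nlinarith
  exact_mod_cast h2

/-- `2^(2^(√(lg X)/E)) ≥ X²` for large `X`. -/
theorem Z_big {E : ℕ} (hE : 1 ≤ E) : ∃ X₁ : ℝ, 1 ≤ X₁ ∧ ∀ X : ℝ, X₁ ≤ X →
    X ^ 2 ≤ ((2 ^ tb E (Nat.sqrt (lg X)) : ℕ) : ℝ) := by
  obtain ⟨t₀, ht₀⟩ := pow_big E
  refine ⟨2 ^ ((E * t₀) ^ 2), one_le_pow₀ one_le_two, fun X hX => ?_⟩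
  have hX1 : (1 : ℝ) ≤ X := (one_le_pow₀ one_le_two).trans hX
  have hfl : 2 ^ ((E * t₀) ^ 2) ≤ ⌊X⌋₊ := by
    apply Nat.le_floor
    exact_mod_cast hX
  have hL : (E * t₀) ^ 2 ≤ lg X := by
    unfold lg
    exact Nat.le_log_of_pow_le one_lt_two hfl
  set L := lg X with hLd
  set m := Nat.sqrt L with hm
  have hm1 : E * t₀ ≤ m := by
    rw [hm, Nat.le_sqrt']
    exact hL
  have ht : t₀ ≤ m / E := by
    rw [Nat.le_div_iff_mul_le (by omega), mul_comm]
    exact hm1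
  have hXlt : X < 2 ^ (L + 1) := by
    have h1 : ⌊X⌋₊ < 2 ^ (L + 1) := by
      rw [hLd]
      unfold lg
      exact Nat.lt_pow_succ_log_self one_lt_two _
    have h2 := Nat.lt_of_floor_lt h1
    exact_mod_cast h2
  have hLm : L ≤ m * m + m + m := Nat.sqrt_le_add L
  have hmE : m + 1 ≤ E * (m / E + 1) := by
    have := Nat.lt_mul_div_succ m (show 0 < E by omega)
    omega
  have h1 : 2 * L + 2 ≤ 2 * (m + 1) ^ 2 := by nlinarith
  have h2 : 2 * (m + 1) ^ 2 ≤ 2 * E ^ 2 * (m / E + 1) ^ 2 := by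
    calc 2 * (m + 1) ^ 2 ≤ 2 * (E * (m / E + 1)) ^ 2 := by gcongr
      _ = 2 * E ^ 2 * (m / E + 1) ^ 2 := by ring
  have h3 : 2 * L + 2 ≤ tb E m := by
    unfold tb
    exact h1.trans (h2.trans (ht₀ _ ht))
  have h4 : (2 : ℝ) ^ (2 * L + 2) ≤ ((2 ^ tb E m : ℕ) : ℝ) := by
    push_cast
    exact pow_le_pow_right₀ one_le_two h3
  refine le_trans ?_ h4
  calc X ^ 2 ≤ ((2 : ℝ) ^ (L + 1)) ^ 2 := by gcongr
    _ = 2 ^ (2 * L + 2) := by rw [← pow_mul]; congr 1; ring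

theorem tb_mono {E i j : ℕ} (h : i ≤ j) : tb E i ≤ tb E j := by
  unfold tb
  exact Nat.pow_le_pow_right (by norm_num) (Nat.div_le_div_right h)

section

variable {p : ℕ} {B B₀ k U Λ C : Type} [Field k] [AddCommGroup U] [Module k U]
    [AddCommGroup Λ] [Module k Λ] [AddCommGroup C] (S : Sys p B B₀ k U Λ C)

open Classical in
/-- The sum of the `N q^(-3)`. -/
theorem sum_cube {K : ℕ} (hche : ∀ j : ℕ, 1 ≤ j → ∑ q ∈ S.blk j, (1 : ℝ) / S.N q ≤ K / j)
    (P : Finset B) : ∑ q ∈ P, (1 : ℝ) / (S.N q : ℝ) ^ 3 ≤ K := by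
  have hblk : ∀ j : ℕ, ∑ q ∈ P with S.bl q = j, (1 : ℝ) / (S.N q : ℝ) ^ 3 ≤
      (K : ℝ) * ((1 / 2) * (1 / 2) ^ j) := by
    intro j
    rcases Nat.eq_zero_or_pos j with rfl | hj
    · have : (P.filter fun q => S.bl q = 0) = ∅ := by
        apply Finset.filter_eq_empty_iff.2
        intro q _ hq
        have h2 := S.two_le q
        unfold Sys.bl at hq
        rw [Nat.log_eq_zero_iff] at hq
        omega
      rw [this, Finset.sum_empty]
      positivity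
    · have hsub : (P.filter fun q => S.bl q = j) ⊆ S.blk j := by
        intro q hq
        rw [Finset.mem_filter] at hq
        unfold Sys.blk
        rw [Finset.mem_filter, Set.Finite.mem_toFinset]
        refine ⟨?_, hq.2⟩
        show S.N q ≤ 2 ^ (j + 1)
        have h1 : S.N q < 2 ^ (Nat.log 2 (S.N q) + 1) := Nat.lt_pow_succ_log_self one_lt_two _
        have h2 : Nat.log 2 (S.N q) = j := hq.2
        rw [h2] at h1
        exact h1.le
      have hterm : ∀ q ∈ S.blk j, (1 : ℝ) / (S.N q : ℝ) ^ 3 ≤ (1 / 4) ^ j * (1 / S.N q) := by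
        intro q hq
        unfold Sys.blk at hq
        rw [Finset.mem_filter] at hq
        have hN2 := S.two_le q
        have hN : (2 : ℝ) ^ j ≤ S.N q := by
          have h1 : 2 ^ j ≤ S.N q := by
            rw [← hq.2]
            exact Nat.pow_log_le_self 2 (by omega)
          exact_mod_cast h1
        have hN0 : (0 : ℝ) < S.N q := lt_of_lt_of_le (by positivity) hN
        have h4 : (4 : ℝ) ^ j ≤ (S.N q : ℝ) ^ 2 := by
          calc (4 : ℝ) ^ j = ((2 : ℝ) ^ j) ^ 2 := by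
                rw [← pow_mul, mul_comm, pow_mul]; norm_num
            _ ≤ (S.N q : ℝ) ^ 2 := by gcongr
        rw [one_div_pow, one_div_mul_one_div]
        apply one_div_le_one_div_of_le (by positivity)
        nlinarith
      calc ∑ q ∈ P with S.bl q = j, (1 : ℝ) / (S.N q : ℝ) ^ 3
          ≤ ∑ q ∈ S.blk j, (1 : ℝ) / (S.N q : ℝ) ^ 3 :=
            Finset.sum_le_sum_of_subset_of_nonneg hsub fun q _ _ => by positivity
        _ ≤ ∑ q ∈ S.blk j, (1 / 4) ^ j * (1 / (S.N q : ℝ)) := Finset.sum_le_sum hterm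
        _ = (1 / 4) ^ j * ∑ q ∈ S.blk j, 1 / (S.N q : ℝ) := by rw [Finset.mul_sum]
        _ ≤ (1 / 4) ^ j * (K / j) := by
            gcongr
            exact hche j hj
        _ ≤ (1 / 4) ^ j * K := by
            gcongr
            have : (1 : ℝ) ≤ j := by exact_mod_cast hj
            exact div_le_self (Nat.cast_nonneg K) this
        _ ≤ (K : ℝ) * ((1 / 2) * (1 / 2) ^ j) := by
            rw [mul_comm]
            gcongr
            have e1 : (1 / 4 : ℝ) ^ j = (1 / 2) ^ j * (1 / 2) ^ j := by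
              rw [← mul_pow]; norm_num
            rw [e1]
            gcongr
            calc (1 / 2 : ℝ) ^ j ≤ (1 / 2) ^ 1 :=
                  pow_le_pow_of_le_one (by norm_num) (by norm_num) hj
              _ = 1 / 2 := by norm_num
  set J := P.sup S.bl + 1 with hJ
  have hmaps : ∀ q ∈ P, S.bl q ∈ Finset.range J := by
    intro q hq
    rw [Finset.mem_range, hJ]
    exact Nat.lt_succ_of_le (Finset.le_sup (f := S.bl) hq)
  rw [← Finset.sum_fiberwise_of_maps_to hmaps]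
  calc ∑ j ∈ Finset.range J, ∑ q ∈ P with S.bl q = j, (1 : ℝ) / (S.N q : ℝ) ^ 3
      ≤ ∑ j ∈ Finset.range J, (K : ℝ) * ((1 / 2) * (1 / 2) ^ j) :=
        Finset.sum_le_sum fun j _ => hblk j
    _ = (K : ℝ) * ((1 / 2) * ∑ j ∈ Finset.range J, (1 / 2 : ℝ) ^ j) := by
        rw [← Finset.mul_sum, ← Finset.mul_sum]
    _ ≤ (K : ℝ) * ((1 / 2) * 2) := by
        gcongr
        exact sum_geometric_two_le J
    _ = K := by ring

open Classical in
/-- The sum of `c^|b| (nm b)^(-3)`. -/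
theorem sum_nm_cube {K : ℕ} (hche : ∀ j : ℕ, 1 ≤ j → ∑ q ∈ S.blk j, (1 : ℝ) / S.N q ≤ K / j)
    (P : Finset B) {c : ℝ} (hc : 0 ≤ c) :
    ∑ b ∈ P.powerset, c ^ b.card / (S.nm b : ℝ) ^ 3 ≤ Real.exp (c * K) := by
  have h1 : ∀ b ∈ P.powerset, c ^ b.card / (S.nm b : ℝ) ^ 3 = ∏ q ∈ b, c * (1 / (S.N q : ℝ) ^ 3) := by
    intro b _
    rw [Finset.prod_mul_distrib, Finset.prod_const, div_eq_mul_one_div]
    congr 1
    unfold Sys.nm
    rw [Finset.prod_div_distrib, Finset.prod_pow, Finset.prod_const_one]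
    push_cast
    rfl
  rw [Finset.sum_congr rfl h1, ← Finset.prod_one_add]
  calc ∏ q ∈ P, (1 + c * (1 / (S.N q : ℝ) ^ 3))
      ≤ ∏ q ∈ P, Real.exp (c * (1 / (S.N q : ℝ) ^ 3)) := by
        apply Finset.prod_le_prod
        · intro q _
          positivity
        · intro q _
          rw [add_comm]
          exact Real.add_one_le_exp _
    _ = Real.exp (c * ∑ q ∈ P, 1 / (S.N q : ℝ) ^ 3) := by
        rw [← Real.exp_sum, Finset.mul_sum]
    _ ≤ Real.exp (c * K) := by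
        apply Real.exp_le_exp.2
        exact mul_le_mul_of_nonneg_left (sum_cube S hche P) hc

end

theorem s_tl : S_TL := by
  classical
  intro p _ B B₀ k U Λ C _ _ _ _ _ _ _ _ S ψ g K h E ε hE hε
  set Q : ℝ := (Fintype.card k : ℝ) with hQ
  have hQ0 : 0 ≤ Q := Nat.cast_nonneg _
  have hc0 : (0 : ℝ) ≤ 2 * Q := by positivity
  set C0 : ℝ := Real.exp (2 * Q * K) with hC0
  have hC0pos : 0 < C0 := Real.exp_pos _
  obtain ⟨n₀, hn₀, hn₀'⟩ := exp_small (ε := ε / C0) (div_pos hε hC0pos)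
  obtain ⟨X₁, hX₁, hX₁'⟩ := Z_big hE
  refine ⟨max X₁ n₀, hX₁.trans (le_max_left _ _), fun X hX P => ?_⟩
  have hXX₁ : X₁ ≤ X := (le_max_left _ _).trans hX
  have hXn₀ : n₀ ≤ X := (le_max_right _ _).trans hX
  have hX1 : 1 ≤ X := hX₁.trans hXX₁
  have hX0 : 0 < X := by linarith
  have hZ := hX₁' X hXX₁
  -- the bound for large norms
  have hlarge : ∀ n : ℕ, 2 ^ tb E (Nat.sqrt (lg X)) ≤ n →
      Real.exp (-((n : ℝ) / X)) ≤ ε / C0 / (n : ℝ) ^ 3 := by
    intro n hn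
    have hn1 : X ^ 2 ≤ (n : ℝ) := hZ.trans (by exact_mod_cast hn)
    have hnX : X ≤ (n : ℝ) := by nlinarith
    have hn0 : (0 : ℝ) < n := by linarith
    have h1 := hn₀' n (hXn₀.trans hnX)
    rw [le_div_iff₀ (by positivity), mul_comm]
    refine le_trans ?_ h1
    gcongr
    -- √n ≤ n / X
    rw [le_div_iff₀ hX0]
    have h2 : X ≤ √(n : ℝ) := Real.le_sqrt_of_sq_le hn1
    calc √(n : ℝ) * X ≤ √(n : ℝ) * √(n : ℝ) := by gcongr
      _ = n := Real.mul_self_sqrt hn0.le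
  have hb : ∀ b ∈ P.powerset,
      (∑ q ∈ b with (Nat.sqrt (lg X) ≤ S.bl q ∧ 2 ^ tb E (S.bl q) ≤ S.nm b),
        Q ^ b.card * Real.exp (-(S.nm b / X))) ≤
      ε / C0 * ((2 * Q) ^ b.card / (S.nm b : ℝ) ^ 3) := by
    intro b _
    rw [Finset.sum_const, nsmul_eq_mul]
    rcases Finset.eq_empty_or_nonempty
      (b.filter fun q => Nat.sqrt (lg X) ≤ S.bl q ∧ 2 ^ tb E (S.bl q) ≤ S.nm b) with he | hne
    · rw [he, Finset.card_empty, Nat.cast_zero, zero_mul]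
      positivity
    · obtain ⟨q, hq⟩ := hne
      rw [Finset.mem_filter] at hq
      have hn : 2 ^ tb E (Nat.sqrt (lg X)) ≤ S.nm b :=
        (Nat.pow_le_pow_right (by norm_num) (tb_mono hq.2.1)).trans hq.2.2
      have h1 := hlarge (S.nm b) hn
      have h2 : (((b.filter fun q => Nat.sqrt (lg X) ≤ S.bl q ∧
          2 ^ tb E (S.bl q) ≤ S.nm b).card : ℕ) : ℝ) ≤ 2 ^ b.card := by
        have h3 : (b.filter fun q => Nat.sqrt (lg X) ≤ S.bl q ∧
          2 ^ tb E (S.bl q) ≤ S.nm b).card ≤ 2 ^ b.card :=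
          (Finset.card_filter_le _ _).trans (Nat.lt_two_pow_self).le
        exact_mod_cast h3
      calc _ ≤ (2 : ℝ) ^ b.card * (Q ^ b.card * (ε / C0 / (S.nm b : ℝ) ^ 3)) := by
            gcongr
        _ = ε / C0 * ((2 * Q) ^ b.card / (S.nm b : ℝ) ^ 3) := by
            rw [mul_pow]; ring
  calc _ ≤ ∑ b ∈ P.powerset, ε / C0 * ((2 * Q) ^ b.card / (S.nm b : ℝ) ^ 3) :=
        Finset.sum_le_sum hb
    _ = ε / C0 * ∑ b ∈ P.powerset, (2 * Q) ^ b.card / (S.nm b : ℝ) ^ 3 := by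
        rw [Finset.mul_sum]
    _ ≤ ε / C0 * C0 := by
        have := sum_nm_cube S h.che P hc0
        gcongr
    _ = ε := by field_simp
    _ ≤ ε * (X * g X) := by
        have h1 : 1 ≤ X * g X := by
          have := h.g_one X
          nlinarith
        nlinarith

end Pool.Agent.Helper5.M3
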